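import Pool.Agent.N154.GG.Geo3

/-!
The Green-Griffiths-Lang conjecture for projective manifolds with positive 2-forms (for surfaces:
with ample canonical bundle) which are mapped to an elliptic curve with hyperbolic fibres.
-/

set_option autoImplicit false

open FF LinearAlgebra.Projectivization Pool.Agent.W602.GT Pool.Agent.N154.GG

/-- Let `X = {F = 0}` be a smooth projective variety of dimension `d ≥ 2` with function field `K`
and generic point `y`, whose 2-forms are positive (for example, with ample `Λ² Ω`; for surfaces: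
with ample canonical bundle), and let `α : X → ℂ / L` be a holomorphic map to an elliptic curve
whose fibres are Brody hyperbolic. Then there is a finite set `S` of entire curves `g : ℂ → X` with
`α ∘ g` the projection `ℂ → ℂ / L`, all of them doubly periodic with the periods in `k L`, such that
every nonconstant entire curve in `X` is `g ∘ φ` with `g` in `S` and an entire function `φ`. In
particular there is a form `G`, not zero on `X`, which vanishes on all nonconstant entire curves in
`X`: the variety `X` is pseudo-Brody hyperbolic. -/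
theorem Pool.Agent.N154.Shelf.ellipticFibrations {n d : ℕ} {ι : Type}
    (F : ι → MvPolynomial (Fin (n + 1)) ℂ) {K : Type} [Field K] [Algebra ℂ K]
    (y : Fin (n + 1) → K) (hX : SmoothVariety F d y) (hd : 2 ≤ d) {κ : Type}
    (η : κ → (Fin (n + 1) → ℂ) → (Fin (n + 1) → ℂ) → (Fin (n + 1) → ℂ) → ℂ)
    (hη : PositiveTwoForms (Cone F) d η) (L : PeriodPair)
    (α : (Fin (n + 1) → ℂ) → ℂ ⧸ L.lattice) (hα : HolToTorus (Cone F) L α)
    (hfib : HyperbolicFibres F α) :
    ∃ (S : Set (ℂ → ℙ ℂ (Fin (n + 1) → ℂ))) (k : ℕ), S.Finite ∧ 0 < k ∧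
      (∀ g ∈ S, HolIn F g ∧ (∀ z, α (g z).rep = Submodule.Quotient.mk z) ∧
        ∀ l ∈ L.lattice, ∀ z, g (z + k * l) = g z) ∧
      (∀ f, HolIn F f → (∀ z w, f z = f w) ∨
        ∃ g ∈ S, ∃ φ : ℂ → ℂ, Differentiable ℂ φ ∧ ∀ z, f z = g (φ z)) ∧
      ∃ G : MvPolynomial (Fin (n + 1)) ℂ, IsForm G ∧ val y G ≠ 0 ∧
        ∀ f, HolIn F f → (∀ z w, f z = f w) ∨ ∀ z, val (f z).rep G = 0 :=
  ggl_geo hX hd hη hα hfib
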