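import Pool.Agent.N154.DD.KGeo

/-!
Projective manifolds with positive 2-forms (for surfaces: with ample canonical bundle) which are
mapped to an elliptic curve with hyperbolic fibres are pseudo-Kobayashi hyperbolic.
-/

set_option autoImplicit false

open FF LinearAlgebra.Projectivization Pool.Agent.W602.GT Pool.Agent.N154.GG

/-- Let `X = {F = 0}` be a smooth projective variety of dimension `d ≥ 2` with function field `K`
and generic point `y`, whose 2-forms are positive (for example, with ample `Λ² Ω`; for surfaces: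
with ample canonical bundle), and let `α : X → ℂ / L` be a holomorphic map to an elliptic curve
whose fibres are Brody hyperbolic. Then there is a finite set `S` of entire curves `g : ℂ → X` with
`α ∘ g` the projection `ℂ → ℂ / L` such that

* the variety `X` is pseudo-Kobayashi hyperbolic: there is a form `G`, not zero on `X` and vanishing
  on the curves in `S`, such that the Kobayashi pseudodistance of two different points of `X` is
  positive if `G` is not zero at one of them;
* for every `ε > 0` there is a number `c > 0` such that the Kobayashi pseudodistance of the points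
  `p` and `q` of `X` is at least `c D ^ ε min (D, dist p q)`, where `D ≤ 1` is the distance of the
  point `p` from the union of the images of the curves in `S`. -/
theorem Pool.Agent.N154.Shelf.ellipticFibrationsKobayashi {n d : ℕ} {ι : Type}
    (F : ι → MvPolynomial (Fin (n + 1)) ℂ) {K : Type} [Field K] [Algebra ℂ K]
    (y : Fin (n + 1) → K) (hX : SmoothVariety F d y) (hd : 2 ≤ d) {κ : Type}
    (η : κ → (Fin (n + 1) → ℂ) → (Fin (n + 1) → ℂ) → (Fin (n + 1) → ℂ) → ℂ)
    (hη : PositiveTwoForms (Cone F) d η) (L : PeriodPair)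
    (α : (Fin (n + 1) → ℂ) → ℂ ⧸ L.lattice) (hα : HolToTorus (Cone F) L α)
    (hfib : HyperbolicFibres F α) :
    ∃ S : Set (ℂ → ℙ ℂ (Fin (n + 1) → ℂ)), S.Finite ∧
      (∀ g ∈ S, HolIn F g ∧ ∀ z, α (g z).rep = Submodule.Quotient.mk z) ∧
      (∃ G : MvPolynomial (Fin (n + 1)) ℂ, IsForm G ∧ val y G ≠ 0 ∧
        (∀ g ∈ S, ∀ z, val (g z).rep G = 0) ∧
        ∀ p q : ℙ ℂ (Fin (n + 1) → ℂ), p.rep ∈ Cone F → q.rep ∈ Cone F → p ≠ q →
          val p.rep G ≠ 0 ∨ val q.rep G ≠ 0 → 0 < kobayashi (Cone F) p q) ∧
      ∀ ε : ℝ, 0 < ε → ∃ c : ℝ, 0 < c ∧ ∀ p q : ℙ ℂ (Fin (n + 1) → ℂ), p.rep ∈ Cone F →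
        q.rep ∈ Cone F → ∀ D : ℝ, 0 ≤ D → D ≤ 1 → (∀ g ∈ S, ∀ z, D ≤ projDist p (g z)) →
          ENNReal.ofReal (c * D ^ ε * min D (projDist p q)) ≤ kobayashi (Cone F) p q :=
  kob_geo hX hd hη hα hfib
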