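import Pool.Agent.N154.DD.PGeo

/-!
Projective manifolds with positive 2-forms (for surfaces: with ample canonical bundle) which are
mapped to an elliptic curve with hyperbolic fibres are pseudo-Picard hyperbolic.
-/

set_option autoImplicit false

open FF LinearAlgebra.Projectivization Pool.Agent.W602.GT Pool.Agent.N154.GG

/-- Let `X = {F = 0}` be a smooth projective variety of dimension `d ≥ 2` with function field `K`
and generic point `y`, whose 2-forms are positive (for example, with ample `Λ² Ω`; for surfaces:
with ample canonical bundle), and let `α : X → ℂ / L` be a holomorphic map to an elliptic curve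
whose fibres are Brody hyperbolic. Then there is a finite set `S` of entire curves `g : ℂ → X` with
`α ∘ g` the projection `ℂ → ℂ / L` such that every holomorphic map `f` from the punctured unit disc
to `X` either extends to a holomorphic map from the unit disc to `X`, or is of the form
`f (exp z) = g (φ z)` with `g` in `S` and `φ` holomorphic on the half plane `Re z < 0`.

In particular the variety `X` is pseudo-Picard hyperbolic: there is a form `G`, not zero on `X`,
such that every holomorphic map from the punctured disc to `X` whose image is not contained in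
`{G = 0}` extends to the disc. -/
theorem Pool.Agent.N154.Shelf.ellipticFibrationsPicard {n d : ℕ} {ι : Type}
    (F : ι → MvPolynomial (Fin (n + 1)) ℂ) {K : Type} [Field K] [Algebra ℂ K]
    (y : Fin (n + 1) → K) (hX : SmoothVariety F d y) (hd : 2 ≤ d) {κ : Type}
    (η : κ → (Fin (n + 1) → ℂ) → (Fin (n + 1) → ℂ) → (Fin (n + 1) → ℂ) → ℂ)
    (hη : PositiveTwoForms (Cone F) d η) (L : PeriodPair)
    (α : (Fin (n + 1) → ℂ) → ℂ ⧸ L.lattice) (hα : HolToTorus (Cone F) L α)
    (hfib : HyperbolicFibres F α) :
    ∃ S : Set (ℂ → ℙ ℂ (Fin (n + 1) → ℂ)), S.Finite ∧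
      (∀ g ∈ S, HolIn F g ∧ ∀ z, α (g z).rep = Submodule.Quotient.mk z) ∧
      (∀ f, PunctIn F f → Extends F f ∨ ∃ g ∈ S, ∃ φ : ℂ → ℂ,
        DifferentiableOn ℂ φ {z | z.re < 0} ∧
        ∀ z : ℂ, z.re < 0 → f (Complex.exp z) = g (φ z)) ∧
      ∃ G : MvPolynomial (Fin (n + 1)) ℂ, IsForm G ∧ val y G ≠ 0 ∧
        (∀ g ∈ S, ∀ z, val (g z).rep G = 0) ∧
        ∀ f, PunctIn F f → Extends F f ∨ ∀ z ∈ PDisc, val (f z).rep G = 0 :=
  picard_geo hX hd hη hα hfib
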